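import Pool.Agent.Helper29.SR.Props
import Pool.Agent.Helper64.RC.TD2

/-!
# MP_b55b7c_an, packet SR-TD3B
-/

open scoped ENNReal NNReal InnerProductSpace ComplexOrder
open Filter Topology

attribute [-instance] CStarMatrix.instAlgebra CStarMatrix.instModule CStarMatrix.instSMul
  CStarMatrix.instMulAction CStarMatrix.instDistribMulAction

set_option linter.unusedSectionVars false

noncomputable section
namespace RC
universe u

/-- The von Neumann algebra of an algebra without finite dimensional representations has no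
abelian projection. -/
theorem noAbB (h3 : RepFVP.{u}) (hAb : AbRepP.{u}) (B : Type u) [CStarAlgebra B] [PartialOrder B]
    [StarOrderedRing B] (hB : NoFin B) (φ : TState B) (H : Type u) [NormedAddCommGroup H]
    [InnerProductSpace ℂ H] [CompleteSpace H] (π : B →⋆ₐ[ℂ] (H →L[ℂ] H)) (ρ : B → (H →L[ℂ] H))
    (ξ : H) (hrep : IsRep φ π ρ ξ) : NoAb (Set.range ρ) := by
  intro f hf hfp hf0
  by_contra hcon
  push Not at hcon
  obtain ⟨hFV, hπ⟩ := h3 B φ H π ρ ξ hrep
  obtain ⟨r, χ, hr, hχ1, hχ, hχs⟩ := hAb H _ ξ hFV f hf hfp hf0 hcon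
  apply hB r (fun b => χ (π b)) hr
  · change χ (π 1) = 1
    rw [map_one, hχ1]
  · intro x y
    change χ (π (x * y)) = χ (π x) * χ (π y)
    rw [map_mul, (hχ _ (hπ x) _ (hπ y)).1]
  · intro x y
    change χ (π (x + y)) = χ (π x) + χ (π y)
    rw [map_add, (hχ _ (hπ x) _ (hπ y)).2]
  · intro c x
    change χ (π (c • x)) = c • χ (π x)
    rw [map_smul, hχs c _ (hπ x)]

theorem tD3B (h1 : GnsP.{u}) (h3 : RepFVP.{u}) (hAb : AbRepP.{u})
    (h8 : PiecesP.{u}) (h9 : KapP.{u}) (h10 : TwoNormP.{u}) : TD3BP.{u} := by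
  intro B _ _ _ hB φ k η hη
  obtain ⟨H, _, _, _, π, ρ, ξ, hrep⟩ := h1 B φ
  obtain ⟨hF, hmem⟩ := h3 B φ H π ρ ξ hrep
  have hnoab : NoAb (Set.range ρ) := noAbB h3 hAb B hB φ H π ρ ξ hrep
  set S : Set (H →L[ℂ] H) := Set.range ρ with hS
  obtain ⟨V, E, hV, hE, hEp, hVV, hsum⟩ := h8 H S ξ hF hnoab k
  set K : ℝ := 6 * 2 ^ k + 10 with hK
  have hKpos : 0 < K := by positivity
  set T : ℝ := 1 + 2 ^ k * 2 ^ k with hT
  have hTpos : 0 < T := by positivity
  set ε : ℝ := √(η / T) / (2 * K) with hε
  have hηT : 0 < η / T := by positivity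
  have hεpos : 0 < ε := by positivity
  have hKε : (K * ε) ^ 2 < η / T := by
    have : (K * ε) ^ 2 = (η / T) / 4 := by
      have h0 : K * ε = √(η / T) / 2 := by rw [hε]; field_simp
      rw [h0, div_pow, Real.sq_sqrt hηT.le]
      norm_num
    linarith
  have hE1 : ‖E‖ ≤ 1 := td2_norm_proj_le hEp
  have hEs : star E = E := hEp.isSelfAdjoint.star_eq
  have hEE : E * E = E := hEp.isIdempotentElem.eq
  have hVn : ∀ i, ‖V i‖ ≤ 1 := by
    intro i
    have h0 : star (V i) * V i = E := by rw [hVV]; simp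
    have h1 : ‖star (V i) * V i‖ = ‖V i‖ * ‖V i‖ := CStarRing.norm_star_mul_self
    rw [h0] at h1
    by_contra h
    push Not at h
    nlinarith
  have hVE : ∀ i, V i * E = V i := by
    intro i
    have h0 : star (V i) * V i = E := by rw [hVV]; simp
    have h1 : star (V i - V i * E) * (V i - V i * E) = 0 := by
      rw [star_sub, star_mul, hEs, sub_mul, mul_sub, mul_sub, h0, ← mul_assoc, h0, mul_assoc E,
        h0, ← mul_assoc, mul_assoc E, h0, hEE, hEE]
      abel
    have h2 := CStarRing.star_mul_self_eq_zero_iff (V i - V i * E) |>.mp h1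
    exact (sub_eq_zero.mp h2).symm
  choose x hx1 hx2 using fun i => h9 B φ H π ρ ξ hrep (V i) (hV i) (hVn i) ε hεpos
  obtain ⟨e₀, he1, he2⟩ := h9 B φ H π ρ ξ hrep E hE hE1 ε hεpos
  have hcontr : ∀ b : B, ‖b‖ ≤ 1 → ‖π b‖ ≤ 1 := by
    intro b hb
    calc ‖π b‖ ≤ ‖b‖ := NonUnitalStarAlgHom.norm_apply_le π b
      _ ≤ 1 := hb
  have cX : ∀ i, TD2Cl S ξ (π (x i)) (V i) ε := fun i =>
    ⟨hmem _, hV i, hcontr _ (hx1 i), hVn i, by
      rw [_root_.sub_apply]; exact (hx2 i).le⟩
  have cE0 : TD2Cl S ξ (π e₀) E ε :=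
    ⟨hmem _, hE, hcontr _ he1, hE1, by rw [_root_.sub_apply]; exact he2.le⟩
  set e : B := star e₀ * e₀ with he
  have hstar : ∀ b : B, π (star b) = star (π b) := fun b => by
    rw [map_star]
  have hmul : ∀ a b : B, π (a * b) = π a * π b := fun a b => by
    rw [map_mul]
  have cE : TD2Cl S ξ (π e) E (ε + ε) := by
    have := (cE0.star' h10 hF).mul' h10 hF cE0
    rw [hEs, hEE] at this
    rwa [he, hmul, hstar]
  have cEE : TD2Cl S ξ (π (e * e)) E (ε + ε + (ε + ε)) := by
    have := cE.mul' h10 hF cE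
    rw [hEE] at this
    rwa [hmul]
  have hphi : ∀ w : B, ‖π w ξ‖ ≤ K * ε → (φ.φ (star w * w)).re < η / T := by
    intro w hw
    have h0 : φ.φ (star w * w) = ((‖π w ξ‖ ^ 2 : ℝ) : ℂ) := by
      rw [← hrep.inner, hmul, hstar]
      rw [show (star (π w) * π w) ξ = star (π w) (π w ξ) from rfl,
        ContinuousLinearMap.star_eq_adjoint,
        ContinuousLinearMap.adjoint_inner_right, inner_self_eq_norm_sq_to_K]
      push_cast
      rfl
    rw [h0, Complex.ofReal_re]
    refine lt_of_le_of_lt ?_ hKε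
    exact pow_le_pow_left₀ (norm_nonneg _) hw 2
  have hfirst : (φ.φ (star (1 - ∑ i, x i * (e * e) * star (x i)) *
      (1 - ∑ i, x i * (e * e) * star (x i)))).re < η / T := by
    apply hphi
    have cT : ∀ i, TD2Cl S ξ (π (x i * (e * e) * star (x i))) (V i * star (V i))
        (ε + (ε + ε + (ε + ε)) + ε) := by
      intro i
      have := ((cX i).mul' h10 hF cEE).mul' h10 hF ((cX i).star' h10 hF)
      rw [hVE] at this
      rwa [hmul, hmul, hstar]
    have e1 : π (1 - ∑ i, x i * (e * e) * star (x i)) ξ =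
        - ∑ i, (π (x i * (e * e) * star (x i)) - V i * star (V i)) ξ := by
      rw [map_sub, map_one, map_sum, ← hsum]
      rw [_root_.sub_apply, _root_.sum_apply,
        _root_.sum_apply, ← Finset.sum_sub_distrib, ← Finset.sum_neg_distrib]
      refine Finset.sum_congr rfl fun i _ => ?_
      rw [_root_.sub_apply]
      abel
    rw [e1, norm_neg]
    calc ‖∑ i, (π (x i * (e * e) * star (x i)) - V i * star (V i)) ξ‖
        ≤ ∑ i, ‖(π (x i * (e * e) * star (x i)) - V i * star (V i)) ξ‖ := norm_sum_le _ _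
      _ ≤ ∑ _i : Fin (2 ^ k), (ε + (ε + ε + (ε + ε)) + ε) :=
          Finset.sum_le_sum fun i _ => (cT i).d
      _ = (2 ^ k) * (6 * ε) := by
          rw [Finset.sum_const, Finset.card_univ, Fintype.card_fin, nsmul_eq_mul]
          push_cast
          ring
      _ ≤ K * ε := by
          rw [hK]
          nlinarith
  have hsecond : ∀ i l, (φ.φ (star (e * star (x i) * x l * e - if i = l then e * e else 0) *
      (e * star (x i) * x l * e - if i = l then e * e else 0))).re < η / T := by
    intro i l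
    apply hphi
    have cT : TD2Cl S ξ (π (e * star (x i) * x l * e)) (E * star (V i) * V l * E)
        (ε + ε + ε + ε + (ε + ε)) := by
      have := (((cE.mul' h10 hF ((cX i).star' h10 hF)).mul' h10 hF (cX l)).mul' h10 hF cE)
      rwa [hmul, hmul, hmul, hstar]
    have e2 : E * star (V i) * V l * E = if i = l then E else 0 := by
      rw [mul_assoc E, hVV]
      split_ifs
      · rw [hEE, hEE]
      · rw [mul_zero, zero_mul]
    have e3 : π (e * star (x i) * x l * e - if i = l then e * e else 0) ξ =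
        (π (e * star (x i) * x l * e) - E * star (V i) * V l * E) ξ -
          (if i = l then (π (e * e) - E) ξ else 0) := by
      rw [e2, map_sub]
      split_ifs
      · simp only [_root_.sub_apply]
        abel
      · simp
    rw [e3]
    refine (norm_sub_le _ _).trans ?_
    have h0 : ‖(if i = l then (π (e * e) - E) ξ else 0)‖ ≤ ε + ε + (ε + ε) := by
      split_ifs
      · exact cEE.d
      · rw [norm_zero]; positivity
    have h00 := cT.d
    have : (0 : ℝ) < 2 ^ k := by positivity
    rw [hK]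
    nlinarith [mul_pos this hεpos]
  refine ⟨e, x, star_mul_self_nonneg _, ?_, hx1, ?_⟩
  · -- e ≤ 1
    have h0 : star e₀ * e₀ ≤ algebraMap ℝ B (‖e₀‖ ^ 2) :=
      CStarAlgebra.star_mul_le_algebraMap_norm_sq
    refine h0.trans ?_
    have h00 : algebraMap ℝ B (‖e₀‖ ^ 2) ≤ algebraMap ℝ B 1 := by
      apply algebraMap_mono
      exact pow_le_one₀ (norm_nonneg _) he1
    rwa [map_one] at h00
  · -- the sum
    unfold HD
    rw [map_add, map_sum, Complex.add_re, Complex.re_sum]
    have h1 : ∀ i : Fin (2 ^ k), (φ.φ (∑ l, star (e * star (x i) * x l * e -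
        if i = l then e * e else 0) * (e * star (x i) * x l * e -
          if i = l then e * e else 0))).re ≤ 2 ^ k * (η / T) := by
      intro i
      rw [map_sum, Complex.re_sum]
      calc _ ≤ ∑ _l : Fin (2 ^ k), η / T := Finset.sum_le_sum fun l _ => (hsecond i l).le
        _ = 2 ^ k * (η / T) := by
          rw [Finset.sum_const, Finset.card_univ, Fintype.card_fin, nsmul_eq_mul]
          push_cast
          rfl
    have h2 : ∑ i : Fin (2 ^ k), (φ.φ (∑ l, star (e * star (x i) * x l * e -
        if i = l then e * e else 0) * (e * star (x i) * x l * e -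
          if i = l then e * e else 0))).re ≤ 2 ^ k * (2 ^ k * (η / T)) := by
      calc _ ≤ ∑ _i : Fin (2 ^ k), 2 ^ k * (η / T) := Finset.sum_le_sum fun i _ => h1 i
        _ = _ := by
          rw [Finset.sum_const, Finset.card_univ, Fintype.card_fin, nsmul_eq_mul]
          push_cast
          rfl
    have h3 : η / T + 2 ^ k * (2 ^ k * (η / T)) = η := by
      have : η / T + 2 ^ k * (2 ^ k * (η / T)) = T * (η / T) := by rw [hT]; ring
      rw [this]
      field_simp
    linarith

end RC
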